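import Mathlib

/-!
# MP_1a5975_nt: integrality of normalised sums of (35k+8) binom(4k;k,k,k,k) 81^(n-1-k)
-/

open Finset Nat

namespace Pool.Agent.Results.MP_1a5975_nt.MultinomialSum81

/-- The multinomial coefficient `(4k)!/(k!)^4`. -/
def multi (k : ℕ) : ℚ := ((4 * k)! : ℚ) / ((k ! : ℕ) : ℚ) ^ 4

/-- The sum `∑_{k<n} (35k+8) (4k)!/(k!)^4 81^(n-1-k)`. -/
def S (n : ℕ) : ℚ := ∑ k ∈ range n, (35 * (k : ℚ) + 8) * multi k * 81 ^ (n - 1 - k)

/-- The rational number `a_n` of the problem. -/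
def a (n : ℕ) : ℚ := 1 / (4 * n * (2 * n + 1) * ((2 * n).choose n : ℚ)) * S n

/-! ## The identity -/

/-- `c_k binom(3m+k+2, 2m+1)`, where `n = m + 1`. -/
def w (m k : ℕ) : ℕ := centralBinom k * (3 * m + k + 2).choose (2 * m + 1)

lemma cb_succ (k : ℕ) : ((k : ℚ) + 1) * (centralBinom (k + 1) : ℚ) =
    2 * (2 * k + 1) * centralBinom k := by
  have h := Nat.succ_mul_centralBinom_succ k
  exact_mod_cast h

lemma ch (p q : ℕ) : ((p + q).choose p : ℚ) = ((p + q)! : ℚ) / ((p ! : ℕ) * (q ! : ℕ)) := by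
  rw [Nat.cast_add_choose]

/-- The certificate of the summation. -/
lemma cert (m k : ℕ) :
    6 * (2 * (m : ℚ) + 3) * (w (m + 1) k : ℚ) =
      (81 * (m + 1) - 9 * (k : ℚ) ^ 2 / (m + 1)) * w m k +
        3 * ((k : ℚ) + 1) ^ 2 / (m + 1) * w m (k + 1) := by
  have h1 : ((3 * m + k + 2).choose (2 * m + 1) : ℚ) =
      ((3 * m + k + 2)! : ℚ) / (((2 * m + 1)! : ℕ) * ((m + k + 1)! : ℕ)) := by
    rw [show 3 * m + k + 2 = (2 * m + 1) + (m + k + 1) by ring, ch]
  have h2 : ((3 * (m + 1) + k + 2).choose (2 * (m + 1) + 1) : ℚ) =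
      ((3 * m + k + 5)! : ℚ) / (((2 * m + 3)! : ℕ) * ((m + k + 2)! : ℕ)) := by
    rw [show 3 * (m + 1) + k + 2 = (2 * m + 3) + (m + k + 2) by ring,
      show 2 * (m + 1) + 1 = 2 * m + 3 by ring, ch,
      show (2 * m + 3) + (m + k + 2) = 3 * m + k + 5 by ring]
  have h3 : ((3 * m + (k + 1) + 2).choose (2 * m + 1) : ℚ) =
      ((3 * m + k + 3)! : ℚ) / (((2 * m + 1)! : ℕ) * ((m + k + 2)! : ℕ)) := by
    rw [show 3 * m + (k + 1) + 2 = (2 * m + 1) + (m + k + 2) by ring, ch,
      show (2 * m + 1) + (m + k + 2) = 3 * m + k + 3 by ring]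
  have f1 : ((3 * m + k + 3)! : ℚ) = (3 * m + k + 3) * ((3 * m + k + 2)! : ℚ) := by
    rw [Nat.factorial_succ]; push_cast; ring
  have f2 : ((3 * m + k + 5)! : ℚ) = (3 * m + k + 5) * (3 * m + k + 4) * (3 * m + k + 3) *
      ((3 * m + k + 2)! : ℚ) := by
    rw [Nat.factorial_succ, Nat.factorial_succ, Nat.factorial_succ]; push_cast; ring
  have f3 : (((2 * m + 3)! : ℕ) : ℚ) = (2 * m + 3) * (2 * m + 2) * ((2 * m + 1)! : ℕ) := by
    rw [Nat.factorial_succ, Nat.factorial_succ]; push_cast; ring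
  have f4 : (((m + k + 2)! : ℕ) : ℚ) = (m + k + 2) * ((m + k + 1)! : ℕ) := by
    rw [Nat.factorial_succ]; push_cast; ring
  have c1 : (centralBinom (k + 1) : ℚ) = 2 * (2 * k + 1) * centralBinom k / (k + 1) := by
    rw [eq_div_iff (by positivity), ← cb_succ k]; ring
  have p1 : (((2 * m + 1)! : ℕ) : ℚ) ≠ 0 := by positivity
  have p2 : (((m + k + 1)! : ℕ) : ℚ) ≠ 0 := by positivity
  have p3 : ((m : ℚ) + 1) ≠ 0 := by positivity
  have p4 : ((k : ℚ) + 1) ≠ 0 := by positivity
  have p5 : ((m : ℚ) + k + 2) ≠ 0 := by positivity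
  have p6 : (2 * (m : ℚ) + 3) ≠ 0 := by positivity
  have p7 : (2 * (m : ℚ) + 2) ≠ 0 := by positivity
  unfold w
  rw [Nat.cast_mul, Nat.cast_mul, Nat.cast_mul, h1, h2, h3, f1, f2, f3, f4, c1]
  field_simp
  ring

/-- The second sum, `∑_{k<n} 3^(n-1-k) c_k binom(3n+k-1, 2n-1)` with `n = m+1`. -/
def T (m : ℕ) : ℚ := ∑ k ∈ range (m + 1), 3 ^ (m - k) * (w m k : ℚ)

lemma T_eq (m : ℕ) : T m = 3 ^ m * ∑ k ∈ range (m + 1), (w m k : ℚ) / 3 ^ k := by
  unfold T
  rw [mul_sum]
  refine sum_congr rfl fun k hk => ?_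
  have hk' : k ≤ m := Nat.lt_succ_iff.mp (mem_range.mp hk)
  rw [pow_sub₀ _ (by norm_num) hk']
  field_simp

lemma T_rec (m : ℕ) :
    2 * (2 * (m : ℚ) + 3) * T (m + 1) = 81 * (m + 1) * T m +
      (35 * ((m : ℚ) + 1) + 8) / 2 * ((4 * (m + 1)).choose (2 * (m + 1)) : ℚ) *
        centralBinom (m + 1) := by
  have hsum : ∀ K : ℕ, ∑ k ∈ range K, (6 * (2 * (m : ℚ) + 3) * ((w (m + 1) k : ℚ) / 3 ^ k) -
      81 * (m + 1) * ((w m k : ℚ) / 3 ^ k)) = 9 * (K : ℚ) ^ 2 / (m + 1) * (w m K / 3 ^ K) := by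
    intro K
    induction K with
    | zero => simp
    | succ K ih =>
      rw [sum_range_succ, ih]
      have h := cert m K
      have p3 : ((m : ℚ) + 1) ≠ 0 := by positivity
      have p4 : (3 : ℚ) ^ K ≠ 0 := by positivity
      rw [pow_succ (3 : ℚ) K]
      have h' : 6 * (2 * (m : ℚ) + 3) * ((w (m + 1) K : ℚ) / 3 ^ K) =
          (81 * (m + 1) - 9 * (K : ℚ) ^ 2 / (m + 1)) * (w m K / 3 ^ K) +
          3 * ((K : ℚ) + 1) ^ 2 / (m + 1) * (w m (K + 1) / 3 ^ K) := by
        have h7 : 6 * (2 * (m : ℚ) + 3) * (w (m + 1) K : ℚ) / 3 ^ K =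
            ((81 * (m + 1) - 9 * (K : ℚ) ^ 2 / (m + 1)) * w m K +
              3 * ((K : ℚ) + 1) ^ 2 / (m + 1) * w m (K + 1)) / 3 ^ K := by rw [h]
        rw [add_div] at h7
        linear_combination h7
      rw [h']
      push_cast
      field_simp
      ring
  have h := hsum (m + 1)
  rw [sum_sub_distrib, ← mul_sum, ← mul_sum] at h
  have e1 : T (m + 1) = 3 ^ (m + 1) * ∑ k ∈ range (m + 1), (w (m + 1) k : ℚ) / 3 ^ k +
      w (m + 1) (m + 1) := by
    rw [T_eq, sum_range_succ, mul_add]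
    congr 1
    field_simp
  have e2 := T_eq m
  set A : ℚ := ∑ k ∈ range (m + 1), (w (m + 1) k : ℚ) / 3 ^ k with hA
  set B : ℚ := ∑ k ∈ range (m + 1), (w m k : ℚ) / 3 ^ k with hB
  -- values of the boundary terms
  have g1 : ((3 * m + (m + 1) + 2).choose (2 * m + 1) : ℚ) =
      ((4 * (m + 1)).choose (2 * (m + 1)) : ℚ) / 2 := by
    have := Nat.add_one_mul_choose_eq (4 * m + 3) (2 * m + 1)
    have h2 : ((4 * (m : ℚ) + 4)) * ((4 * m + 3).choose (2 * m + 1) : ℚ) =
        ((4 * m + 4).choose (2 * m + 2) : ℚ) * (2 * m + 2) := by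
      exact_mod_cast this
    rw [show 3 * m + (m + 1) + 2 = 4 * m + 3 by ring, show 4 * (m + 1) = 4 * m + 4 by ring,
      show 2 * (m + 1) = 2 * m + 2 by ring]
    have p : ((m : ℚ) + 1) ≠ 0 := by positivity
    apply mul_left_cancel₀ p
    linear_combination h2 / 4
  have g2 : (2 * (m : ℚ) + 3) * ((3 * (m + 1) + (m + 1) + 2).choose (2 * (m + 1) + 1) : ℚ) =
      2 * (4 * m + 5) * ((4 * (m + 1)).choose (2 * (m + 1)) : ℚ) := by
    have h1 := Nat.succ_mul_centralBinom_succ (2 * m + 2)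
    rw [show 3 * (m + 1) + (m + 1) + 2 = 2 * (2 * m + 2 + 1) by ring,
      show 2 * (m + 1) + 1 = 2 * m + 2 + 1 by ring,
      show 4 * (m + 1) = 2 * (2 * m + 2) by ring, show 2 * (m + 1) = 2 * m + 2 by ring,
      ← Nat.centralBinom_eq_two_mul_choose, ← Nat.centralBinom_eq_two_mul_choose]
    have h2 : ((2 * (m : ℚ) + 2 + 1)) * (centralBinom (2 * m + 2 + 1) : ℚ) =
        2 * (2 * (2 * m + 2) + 1) * (centralBinom (2 * m + 2) : ℚ) := by
      exact_mod_cast h1
    linear_combination h2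
  have w1 : (w m (m + 1) : ℚ) = centralBinom (m + 1) *
      (((4 * (m + 1)).choose (2 * (m + 1)) : ℚ) / 2) := by
    unfold w
    rw [Nat.cast_mul, g1]
  have w2 : (2 * (m : ℚ) + 3) * (w (m + 1) (m + 1) : ℚ) = centralBinom (m + 1) *
      (2 * (4 * m + 5) * ((4 * (m + 1)).choose (2 * (m + 1)) : ℚ)) := by
    unfold w
    rw [Nat.cast_mul, ← g2]
    ring
  rw [w1] at h
  rw [e1, e2]
  have p3 : ((m : ℚ) + 1) ≠ 0 := by positivity
  have p5 : (3 : ℚ) ^ (m + 1) ≠ 0 := by positivity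
  push_cast at h
  have h5 : 3 ^ (m + 1) * (6 * (2 * (m : ℚ) + 3) * A - 81 * (m + 1) * B) =
      9 * ((m : ℚ) + 1) * (centralBinom (m + 1) *
        (((4 * (m + 1)).choose (2 * (m + 1)) : ℚ) / 2)) := by
    rw [h]
    field_simp
  rw [pow_succ] at h5 ⊢
  linear_combination h5 / 3 + 2 * w2

lemma multi_eq (n : ℕ) : multi n = ((4 * n).choose (2 * n) : ℚ) * (centralBinom n : ℚ) ^ 2 := by
  unfold multi
  have h1 : ((4 * n).choose (2 * n) : ℚ) = ((4 * n)! : ℚ) / (((2 * n)! : ℕ) * ((2 * n)! : ℕ)) := by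
    rw [show 4 * n = 2 * n + 2 * n by ring, ch]
  have h2 : (centralBinom n : ℚ) = ((2 * n)! : ℚ) / ((n ! : ℕ) * (n ! : ℕ)) := by
    rw [Nat.centralBinom_eq_two_mul_choose, show 2 * n = n + n by ring, ch]
  rw [h1, h2]
  have p1 : ((n ! : ℕ) : ℚ) ≠ 0 := by positivity
  have p2 : (((2 * n)! : ℕ) : ℚ) ≠ 0 := by positivity
  field_simp

lemma S_succ (n : ℕ) : S (n + 1) = 81 * S n + (35 * n + 8) * multi n := by
  unfold S
  rw [sum_range_succ]
  congr 1
  · rw [mul_sum]
    refine sum_congr rfl fun k hk => ?_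
    have hk' : k < n := mem_range.mp hk
    rw [show n + 1 - 1 - k = (n - 1 - k) + 1 by omega, pow_succ]
    ring
  · simp

/-- The identity `S_n = 2 n binom(2n,n) ∑_{k<n} 3^(n-1-k) c_k binom(3n+k-1,2n-1)`. -/
theorem ident (m : ℕ) : S (m + 1) = 2 * (m + 1) * centralBinom (m + 1) * T m := by
  induction m with
  | zero =>
    have h1 : centralBinom 1 = 2 := by decide
    simp [S, T, w, multi, h1]
    norm_num
  | succ m ih =>
    rw [S_succ, ih, multi_eq]
    have h1 := cb_succ (m + 1)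
    have h2 := T_rec m
    push_cast at h1 h2 ⊢
    have p : (2 * (m : ℚ) + 3) ≠ 0 := by positivity
    have h3 : 2 * ((m : ℚ) + 1 + 1) * (centralBinom (m + 1 + 1) : ℚ) * T (m + 1) =
        2 * (centralBinom (m + 1) : ℚ) * (2 * (2 * (m : ℚ) + 3) * T (m + 1)) := by
      linear_combination 2 * T (m + 1) * h1
    rw [h3, h2]
    ring

/-! ## Divisibility -/

lemma E_exists (k : ℕ) : ∃ E : ℤ, 3 * (centralBinom k : ℤ) = (2 * k - 1) * (2 * k - 3) * E := by
  rcases k with _ | _ | m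
  · exact ⟨1, by simp⟩
  · exact ⟨-6, by
      have h1 : centralBinom 1 = 2 := by decide
      simp [h1]⟩
  · refine ⟨2 * (4 * catalan m - catalan (m + 1)), ?_⟩
    have h1 : ((m : ℚ) + 1) * (catalan m : ℚ) = centralBinom m := by
      exact_mod_cast succ_mul_catalan_eq_centralBinom m
    have h2 : ((m : ℚ) + 2) * (catalan (m + 1) : ℚ) = centralBinom (m + 1) := by
      have := succ_mul_catalan_eq_centralBinom (m + 1)
      exact_mod_cast this
    have h3 := cb_succ m
    have h4 := cb_succ (m + 1)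
    push_cast at h4
    have p1 : ((m : ℚ) + 1) ≠ 0 := by positivity
    have p2 : ((m : ℚ) + 2) ≠ 0 := by positivity
    have p3 : (2 * (m : ℚ) + 1) ≠ 0 := by positivity
    have key : 3 * (centralBinom (m + 1 + 1) : ℚ) =
        (2 * ((m : ℚ) + 2) - 1) * (2 * ((m : ℚ) + 2) - 3) *
          (2 * (4 * catalan m - catalan (m + 1))) := by
      have c1 : (catalan m : ℚ) = centralBinom m / (m + 1) := by
        rw [eq_div_iff p1, ← h1]; ring
      have c2 : (catalan (m + 1) : ℚ) = centralBinom (m + 1) / (m + 2) := by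
        rw [eq_div_iff p2, ← h2]; ring
      have c3 : (centralBinom m : ℚ) = (m + 1) * centralBinom (m + 1) / (2 * (2 * m + 1)) := by
        rw [eq_div_iff (by positivity), h3]; ring
      have c4 : (centralBinom (m + 1 + 1) : ℚ) = 2 * (2 * (m + 1) + 1) * centralBinom (m + 1) /
          (m + 2) := by
        rw [eq_div_iff p2, ← h4]; ring
      rw [c1, c2, c4, c3]
      field_simp
      ring
    have key2 : ((3 * (centralBinom (m + 1 + 1) : ℤ) : ℤ) : ℚ) =
        (((2 * ((m + 1 + 1 : ℕ) : ℤ) - 1) * (2 * ((m + 1 + 1 : ℕ) : ℤ) - 3) *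
          (2 * (4 * (catalan m : ℤ) - (catalan (m + 1) : ℤ))) : ℤ) : ℚ) := by
      push_cast
      rw [show (m : ℚ) + 1 + 1 = m + 2 by ring]
      exact key
    exact_mod_cast key2

/-- `2n+1` divides `3 c_k binom(3n+k-1, 2n-1)`. -/
lemma odd_dvd (m k : ℕ) : (2 * (m : ℤ) + 3) ∣ 3 * (w m k : ℤ) := by
  obtain ⟨E, hE⟩ := E_exists k
  set X : ℤ := ((3 * m + k + 2).choose (2 * m + 1) : ℤ) with hX
  have h1 : ((3 * m + k + 2).choose (2 * m + 2) : ℤ) * (2 * m + 2) = X * (m + k + 1) := by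
    have := Nat.choose_succ_right_eq (3 * m + k + 2) (2 * m + 1)
    rw [show 3 * m + k + 2 - (2 * m + 1) = m + k + 1 by omega] at this
    rw [hX]
    exact_mod_cast this
  have h2 : ((3 * m + k + 2).choose (2 * m + 3) : ℤ) * (2 * m + 3) =
      ((3 * m + k + 2).choose (2 * m + 2) : ℤ) * (m + k) := by
    have := Nat.choose_succ_right_eq (3 * m + k + 2) (2 * m + 2)
    rw [show 3 * m + k + 2 - (2 * m + 2) = m + k by omega] at this
    exact_mod_cast this
  refine ⟨X * E * (2 * m + 3) - 2 * X * E * ((m + k + 1) + (m + k)) +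
    4 * E * ((3 * m + k + 2).choose (2 * m + 3) : ℤ) * (2 * m + 2), ?_⟩
  have h3 : (w m k : ℤ) = centralBinom k * X := by
    unfold w
    push_cast
    rfl
  rw [h3]
  linear_combination X * hE + (-4 * E * (2 * (m : ℤ) + 2)) * h2 + (-4 * E * ((m : ℤ) + k)) * h1

lemma two_dvd_w (m k : ℕ) : 2 ∣ w m k := by
  unfold w
  rcases k with _ | k
  · have h := Nat.choose_succ_right_eq (3 * m + 2) m
    have h2 : (3 * m + 2).choose (2 * m + 1) = (3 * m + 2).choose (m + 1) := by
      apply Nat.choose_symm_of_eq_add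
      ring
    have h3 : (3 * m + 2).choose (m + 1) = 2 * (3 * m + 2).choose m := by
      rw [show 3 * m + 2 - m = 2 * (m + 1) by omega] at h
      have : (m + 1) * (3 * m + 2).choose (m + 1) = (m + 1) * (2 * (3 * m + 2).choose m) := by
        linarith
      exact Nat.eq_of_mul_eq_mul_left (Nat.succ_pos m) this
    rw [Nat.add_zero, h2, h3]
    exact Dvd.dvd.mul_left (Dvd.intro _ rfl) _
  · exact Dvd.dvd.mul_right (Nat.two_dvd_centralBinom_of_one_le (Nat.succ_pos k)) _

lemma full_dvd (m k : ℕ) : ∃ y : ℕ, 3 * w m k = 2 * (2 * m + 3) * y := by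
  have h1 : (2 * m + 3) ∣ 3 * w m k := by
    have := odd_dvd m k
    exact_mod_cast this
  have h2 : 2 ∣ 3 * w m k := Dvd.dvd.mul_left (two_dvd_w m k) 3
  have h3 : Nat.Coprime 2 (2 * m + 3) := by
    rw [Nat.coprime_two_left]
    exact ⟨m + 1, by ring⟩
  exact (h3.mul_dvd_of_dvd_of_dvd h2 h1)

/-! ## The 3-adic part -/

/-- exponent of `3` in the central binomial coefficient -/
def v (n : ℕ) : ℕ := padicValNat 3 (centralBinom n)

lemma v_add (n : ℕ) : v n + 2 * padicValNat 3 n ! = padicValNat 3 (2 * n)! := by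
  have h : centralBinom n * (n ! * n !) = (2 * n)! := by
    have := Nat.choose_mul_factorial_mul_factorial (n := 2 * n) (k := n) (by omega)
    rw [show 2 * n - n = n by omega] at this
    rw [Nat.centralBinom_eq_two_mul_choose, ← mul_assoc]
    exact this
  rw [← h, padicValNat.mul (Nat.centralBinom_ne_zero n)
    (mul_ne_zero (Nat.factorial_ne_zero n) (Nat.factorial_ne_zero n)),
    padicValNat.mul (Nat.factorial_ne_zero n) (Nat.factorial_ne_zero n)]
  unfold v
  ring

lemma fac0 (n : ℕ) : padicValNat 3 (3 * n)! = padicValNat 3 n ! + n :=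
  padicValNat_factorial_mul n

lemma fac1 (n r : ℕ) (hr : r < 3) : padicValNat 3 (3 * n + r)! = padicValNat 3 n ! + n := by
  rw [padicValNat_factorial_mul_add n hr, fac0]

lemma v0 (m : ℕ) : v (3 * m) = v m := by
  have h1 := v_add (3 * m)
  have h2 := v_add m
  rw [show 2 * (3 * m) = 3 * (2 * m) by ring, fac0, fac0] at h1
  omega

lemma v1 (m : ℕ) : v (3 * m + 1) = v m := by
  have h1 := v_add (3 * m + 1)
  have h2 := v_add m
  rw [show 2 * (3 * m + 1) = 3 * (2 * m) + 2 by ring, fac1 _ _ (by norm_num),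
    fac1 _ _ (by norm_num)] at h1
  omega

lemma v2 (m : ℕ) : v (3 * m + 2) = v m + 1 + padicValNat 3 (2 * m + 1) := by
  have h1 := v_add (3 * m + 2)
  have h2 := v_add m
  rw [show 2 * (3 * m + 2) = 3 * (2 * m + 1) + 1 by ring, fac1 _ _ (by norm_num),
    fac1 _ _ (by norm_num), Nat.factorial_succ, padicValNat.mul (by omega)
    (Nat.factorial_ne_zero _)] at h1
  omega

lemma lemP : ∀ j : ℕ, 0 < j → 1 ≤ v j + v (2 * j) := by
  intro j
  induction j using Nat.strong_induction_on with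
  | _ j ih =>
    intro hj
    have h3 : j = 3 * (j / 3) + j % 3 := by omega
    have h4 : j % 3 = 0 ∨ j % 3 = 1 ∨ j % 3 = 2 := by omega
    rcases h4 with h | h | h
    · have hi := ih (j / 3) (by omega) (by omega)
      rw [h3, h, Nat.add_zero, v0, show 2 * (3 * (j / 3)) = 3 * (2 * (j / 3)) by ring, v0]
      exact hi
    · rw [h3, h, show 2 * (3 * (j / 3) + 1) = 3 * (2 * (j / 3)) + 2 by ring, v2]
      omega
    · rw [h3, h, v2]
      omega

lemma val_zero {x : ℕ} (h : ¬ 3 ∣ x) : padicValNat 3 x = 0 := padicValNat.eq_zero_of_not_dvd h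

lemma lemK : ∀ l : ℕ, ((∃ j, 2 * l + 1 = 3 ^ j) → v l + v (2 * l) = padicValNat 3 (2 * l + 1)) ∧
    ((¬ ∃ j, 2 * l + 1 = 3 ^ j) → padicValNat 3 (2 * l + 1) + 1 ≤ v l + v (2 * l)) := by
  intro l
  induction l using Nat.strong_induction_on with
  | _ l ih =>
    have h3 : l = 3 * (l / 3) + l % 3 := by omega
    have h4 : l % 3 = 0 ∨ l % 3 = 1 ∨ l % 3 = 2 := by omega
    set q := l / 3 with hq
    rcases h4 with h | h | h
    · rw [h, Nat.add_zero] at h3
      have hv : padicValNat 3 (2 * l + 1) = 0 := val_zero (by omega)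
      rcases Nat.eq_zero_or_pos l with h0 | h0
      · subst h0
        refine ⟨fun _ => ?_, fun hn => absurd ⟨0, by norm_num⟩ hn⟩
        have : v 0 = 0 := by simp [v]
        simp [this]
      · have hne : ¬ ∃ j, 2 * l + 1 = 3 ^ j := by
          rintro ⟨j, hj⟩
          rcases j with _ | j
          · simp at hj; omega
          · rw [pow_succ] at hj; omega
        refine ⟨fun hp => absurd hp hne, fun _ => ?_⟩
        rw [hv, h3, v0, show 2 * (3 * q) = 3 * (2 * q) by ring, v0]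
        have := lemP q (by omega)
        omega
    · rw [h] at h3
      obtain ⟨ih1, ih2⟩ := ih q (by omega)
      have e1 : 2 * l + 1 = 3 * (2 * q + 1) := by omega
      have e2 : padicValNat 3 (2 * l + 1) = 1 + padicValNat 3 (2 * q + 1) := by
        rw [e1, padicValNat.mul (by norm_num) (by omega), padicValNat_self]
      have e3 : v l = v q := by rw [h3, v1]
      have e4 : v (2 * l) = v (2 * q) + 1 + padicValNat 3 (4 * q + 1) := by
        rw [h3, show 2 * (3 * q + 1) = 3 * (2 * q) + 2 by ring, v2]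
        congr 2
        ring
      have e5 : (∃ j, 2 * l + 1 = 3 ^ j) ↔ ∃ j, 2 * q + 1 = 3 ^ j := by
        constructor
        · rintro ⟨j, hj⟩
          rcases j with _ | j
          · simp at hj; omega
          · refine ⟨j, ?_⟩
            rw [pow_succ] at hj; omega
        · rintro ⟨j, hj⟩
          refine ⟨j + 1, ?_⟩
          rw [e1, hj, pow_succ]; ring
      rw [e5, e2, e3, e4]
      refine ⟨fun hp => ?_, fun hp => ?_⟩
      · have h5 := ih1 hp
        have h6 : padicValNat 3 (4 * q + 1) = 0 := by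
          apply val_zero
          intro hd
          obtain ⟨j, hj⟩ := hp
          rcases j with _ | j
          · simp at hj; omega
          · rw [pow_succ] at hj; omega
        omega
      · have h5 := ih2 hp
        omega
    · rw [h] at h3
      have hne : ¬ ∃ j, 2 * l + 1 = 3 ^ j := by
        rintro ⟨j, hj⟩
        rcases j with _ | j
        · simp at hj; omega
        · rw [pow_succ] at hj; omega
      have hv : padicValNat 3 (2 * l + 1) = 0 := val_zero (by omega)
      refine ⟨fun hp => absurd hp hne, fun _ => ?_⟩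
      rw [hv, h3, v2]
      omega

/-- The last term: `3 ∣ y` iff `2m+3` is not a power of `3`. -/
lemma last_term (m y : ℕ) (hy : 3 * w m m = 2 * (2 * m + 3) * y) :
    3 ∣ y ↔ ¬ ∃ j, 2 * m + 3 = 3 ^ j := by
  have hw : w m m = centralBinom m * centralBinom (2 * m + 1) := by
    unfold w
    rw [Nat.centralBinom_eq_two_mul_choose (2 * m + 1)]
    congr 2
    ring
  have hy0 : y ≠ 0 := by
    rintro rfl
    rw [hw] at hy
    have h1 := Nat.centralBinom_pos m
    have h2 := Nat.centralBinom_pos (2 * m + 1)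
    have : 0 < centralBinom m * centralBinom (2 * m + 1) := Nat.mul_pos h1 h2
    omega
  have hval : 1 + (v m + v (2 * m + 1)) = padicValNat 3 (2 * m + 3) + padicValNat 3 y := by
    have h := congrArg (padicValNat 3) hy
    rw [hw, padicValNat.mul (by norm_num) (mul_ne_zero (Nat.centralBinom_ne_zero _)
      (Nat.centralBinom_ne_zero _)), padicValNat_self, padicValNat.mul
      (Nat.centralBinom_ne_zero _) (Nat.centralBinom_ne_zero _), padicValNat.mul
      (by positivity) hy0, padicValNat.mul (by norm_num) (by omega),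
      val_zero (x := 2) (by norm_num), zero_add] at h
    exact h
  have hiff : 3 ∣ y ↔ 1 ≤ padicValNat 3 y := by
    constructor
    · exact fun h => one_le_padicValNat_of_dvd hy0 h
    · intro h
      by_contra hn
      rw [val_zero hn] at h
      omega
  rw [hiff]
  by_cases h3 : 3 ∣ 2 * m + 3
  · obtain ⟨l, hl⟩ : 3 ∣ m := by omega
    have e1 : 2 * m + 3 = 3 * (2 * l + 1) := by omega
    have e2 : padicValNat 3 (2 * m + 3) = 1 + padicValNat 3 (2 * l + 1) := by
      rw [e1, padicValNat.mul (by norm_num) (by omega), padicValNat_self]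
    have e3 : v m = v l := by rw [hl, v0]
    have e4 : v (2 * m + 1) = v (2 * l) := by
      rw [hl, show 2 * (3 * l) + 1 = 3 * (2 * l) + 1 by ring, v1]
    have e5 : (∃ j, 2 * m + 3 = 3 ^ j) ↔ ∃ j, 2 * l + 1 = 3 ^ j := by
      constructor
      · rintro ⟨j, hj⟩
        rcases j with _ | j
        · simp at hj
        · refine ⟨j, ?_⟩
          rw [pow_succ] at hj; omega
      · rintro ⟨j, hj⟩
        refine ⟨j + 1, ?_⟩
        rw [e1, hj, pow_succ]; ring
    rw [e5]
    rw [e2, e3, e4] at hval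
    obtain ⟨k1, k2⟩ := lemK l
    constructor
    · intro h hp
      have := k1 hp
      omega
    · intro hp
      have := k2 hp
      omega
  · have hne : ¬ ∃ j, 2 * m + 3 = 3 ^ j := by
      rintro ⟨j, hj⟩
      rcases j with _ | j
      · simp at hj
      · rw [hj, pow_succ] at h3
        exact h3 (Dvd.intro_left _ rfl)
    rw [val_zero h3] at hval
    refine ⟨fun _ => hne, fun _ => by omega⟩

/-- `3 a_n` is an integer, and it is divisible by `3` iff `2n+1` is not a power of `3`. -/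
theorem three_mul (m : ℕ) : ∃ z : ℕ, 3 * a (m + 1) = z ∧
    (3 ∣ z ↔ ¬ ∃ j, 2 * m + 3 = 3 ^ j) := by
  choose y hy using full_dvd m
  refine ⟨∑ k ∈ range (m + 1), 3 ^ (m - k) * y k, ?_, ?_⟩
  · have h1 : a (m + 1) = T m / (2 * (2 * m + 3)) := by
      unfold a
      rw [ident, ← Nat.centralBinom_eq_two_mul_choose]
      have p1 : (centralBinom (m + 1) : ℚ) ≠ 0 := by
        exact_mod_cast Nat.centralBinom_ne_zero (m + 1)
      have p2 : ((m : ℚ) + 1) ≠ 0 := by positivity
      have p3 : (2 * (m : ℚ) + 3) ≠ 0 := by positivity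
      push_cast
      rw [show 2 * ((m : ℚ) + 1) + 1 = 2 * m + 3 by ring]
      field_simp
      norm_num
    have p3 : (2 * (m : ℚ) + 3) ≠ 0 := by positivity
    rw [h1]
    push_cast
    unfold T
    rw [mul_div_assoc', div_eq_iff (by positivity), mul_sum, sum_mul]
    refine sum_congr rfl fun k _ => ?_
    have h2 : 3 * (w m k : ℚ) = 2 * (2 * m + 3) * y k := by exact_mod_cast hy k
    linear_combination 3 ^ (m - k) * h2
  · rw [sum_range_succ, Nat.sub_self, pow_zero, one_mul, ← last_term m (y m) (hy m)]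
    apply Nat.dvd_add_right
    refine dvd_sum fun k hk => ?_
    have hk' := mem_range.mp hk
    exact Dvd.dvd.mul_right (dvd_pow_self 3 (by omega)) _

/-- **Answer to Q1 (positive).** For every `n ≥ 1`: if `2n+1` is not a power of `3` (with positive
exponent) then `a_n` is an integer; if it is, then `3 a_n` is an integer not divisible by `3`. -/
theorem result (n : ℕ) (hn : 1 ≤ n) :
    ((¬ ∃ m : ℕ, 1 ≤ m ∧ 2 * n + 1 = 3 ^ m) → ∃ z : ℤ, a n = z) ∧
      ((∃ m : ℕ, 1 ≤ m ∧ 2 * n + 1 = 3 ^ m) → ∃ z : ℤ, 3 * a n = z ∧ ¬ (3 : ℤ) ∣ z) := by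
  obtain ⟨m, rfl⟩ : ∃ m, n = m + 1 := ⟨n - 1, by omega⟩
  obtain ⟨z, hz, hz3⟩ := three_mul m
  have hiff : (∃ i : ℕ, 1 ≤ i ∧ 2 * (m + 1) + 1 = 3 ^ i) ↔ ∃ j, 2 * m + 3 = 3 ^ j := by
    constructor
    · rintro ⟨i, -, h⟩
      exact ⟨i, by rw [← h]; ring⟩
    · rintro ⟨j, h⟩
      refine ⟨j, ?_, by rw [← h]; ring⟩
      rcases j with _ | j
      · simp at h
      · omega
  rw [hiff]
  constructor
  · intro h
    obtain ⟨y, rfl⟩ := hz3.mpr h
    refine ⟨y, ?_⟩
    push_cast at hz ⊢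
    linarith
  · intro h
    refine ⟨z, by exact_mod_cast hz, ?_⟩
    intro hd
    exact (hz3.mp (by exact_mod_cast hd)) h

end Pool.Agent.Results.MP_1a5975_nt.MultinomialSum81
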